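import Mathlib
import Pool.Agent.H295R2.Mol.Defs
import Pool.Agent.H370R2.Count
import Pool.Agent.H370R2.DirGood

/-!
# T9: the zeros of a primitive Dirichlet L-function reach the line `Re s = 1/2`

The zero-counting asymptotics give a zero in the open critical strip; by the symmetry about the
critical line one of `ρ`, `1 - conj ρ` has real part at least `1/2`.
-/

set_option autoImplicit false

open Complex Filter Topology Set MeasureTheory

namespace Pool.Agent.H862R2.Mol

/-- if there is no zero in the strip then the counting function vanishes -/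
lemma th_NN_zero {F : ℂ → ℂ} {a b : ℝ} (h : H370.zset F a b = ∅) : H370.NN F a b = 0 := by
  unfold H370.NN
  rw [h]
  exact finsum_mem_empty

/-- a good L-function has a zero in the open critical strip, with ordinate larger than one -/
theorem th_exists_zero {F : ℂ → ℂ} (hF : H370.GoodL F) :
    ∃ ρ : ℂ, 0 < ρ.re ∧ ρ.re < 1 ∧ 1 ≤ ρ.im ∧ F ρ = 0 := by
  obtain ⟨C, T0, hC, hT0, hT⟩ := H370.nn_asymp hF
  by_contra hcon
  push Not at hcon
  have hz : ∀ a b : ℝ, 1 ≤ a → H370.zset F a b = ∅ := by
    intro a b ha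
    rw [Set.eq_empty_iff_forall_notMem]
    rintro s ⟨h1, h2, h3, -, h5⟩
    exact hcon s h1 h2 (by linarith) h5
  obtain ⟨T, hTT0, hTC⟩ : ∃ T : ℝ, T0 ≤ T ∧ 2 * Real.pi * C < Real.log T := by
    have h1 := (Real.tendsto_log_atTop.eventually_gt_atTop (2 * Real.pi * C)).and
      (eventually_ge_atTop T0)
    obtain ⟨T, h2, h3⟩ := h1.exists
    exact ⟨T, h3, h2⟩
  have h10 : (10 : ℝ) ≤ T := hT0.trans hTT0
  have h := hT T hTT0 T (2 * T) le_rfl (by linarith) (by linarith) le_rfl
  rw [th_NN_zero (hz T (2 * T) (by linarith))] at h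
  have hpos : 0 < 2 * Real.pi := by positivity
  have hT' : 0 < T := by linarith
  rw [Nat.cast_zero, zero_sub, abs_neg] at h
  have h2 : T * Real.log T / (2 * Real.pi) ≤ C * T := (le_abs_self _).trans h
  rw [div_le_iff₀ hpos] at h2
  have h3 : T * (2 * Real.pi * C) < T * Real.log T := mul_lt_mul_of_pos_left hTC hT'
  nlinarith

/-- T9 -/
theorem theta_half : Pool.Agent.H295R2.Mol.ThetaHalf := by
  intro q _ χ _ hprim θ hθ hz
  have hF := H370.good_dirichlet χ hprim
  obtain ⟨ρ, h0, h1, him, hρ⟩ := th_exists_zero hF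
  rcases lt_or_ge θ ρ.re with h | h
  · exact hz ρ h hρ
  · have han : AnalyticAt ℂ (DirichletCharacter.LFunction χ) ρ := hF.an ρ (by linarith)
    have hor : analyticOrderAt (DirichletCharacter.LFunction χ) ρ ≠ 0 :=
      fun hh => (han.analyticOrderAt_eq_zero.1 hh) hρ
    have hs := hF.symm ρ h0 h1 him
    rw [← hs] at hor
    set z : ℂ := 1 - (starRingEnd ℂ) ρ with hzdef
    have hzim : z.im = ρ.im := by simp [hzdef]
    have hzre : z.re = 1 - ρ.re := by simp [hzdef]
    have han' : AnalyticAt ℂ (DirichletCharacter.LFunction χ) z := hF.an z (by rw [hzim]; linarith)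
    have hzz : DirichletCharacter.LFunction χ z = 0 := by
      by_contra hne
      exact hor (han'.analyticOrderAt_eq_zero.2 hne)
    exact hz z (by rw [hzre]; linarith) hzz

end Pool.Agent.H862R2.Mol
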